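import Pool.Agent.Helper16.CZ.Stmts
import Pool.Agent.Helper53.BZ.PDT

/-!
TPT: trigonometric polynomials along the orbits of a Furstenberg tower (MP_7a8f48_an).
-/

open Finset Filter MeasureTheory Topology
open scoped ComplexConjugate InnerProductSpace

namespace Pool.Agent.Helper16.CZ

open Pool.Agent.Helper16.AZ (T E Op mm ST_VDH ST_FPV ST_TLR)
open Pool.Agent.Helper16.BZ (EQ GR PD)
open Pool.Agent.Helper16.MD (MS PB Am RW Rich)
open UnitAddTorus (mFourier)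
open Pool.Agent.Helper16.BZ (pdt_Z pdt_B pdt_Z_symm pdt_Z_smul pdt_Z_sum pdt_Z_bound pdt_B_add
  pdt_B_mono pdt_B_two pdt_B_one pdt_B_sum pdt_B_cs pdt_norm pdt_Z_smul2 pdt_Z_add)

open Classical in
/-- the largest level of the support of `X` -/
noncomputable def tpt_l {r : ℕ} (lev : Fin r → ℕ) (X : Fin r → ℤ) : ℕ :=
  (Finset.univ.filter (fun j => X j ≠ 0)).sup lev

theorem tpt_l_le {r : ℕ} (lev : Fin r → ℕ) (X : Fin r → ℤ) (j : Fin r) (hj : X j ≠ 0) :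
    lev j ≤ tpt_l lev X := by
  classical
  exact Finset.le_sup (f := lev) (Finset.mem_filter.2 ⟨Finset.mem_univ j, hj⟩)

theorem tpt_l_mem {r : ℕ} (lev : Fin r → ℕ) (X : Fin r → ℤ) (hX : X ≠ 0) :
    ∃ j, lev j = tpt_l lev X ∧ X j ≠ 0 := by
  classical
  obtain ⟨j₀, hj₀⟩ := Function.ne_iff.1 hX
  have hne : (Finset.univ.filter (fun j => X j ≠ 0)).Nonempty :=
    ⟨j₀, Finset.mem_filter.2 ⟨Finset.mem_univ _, hj₀⟩⟩
  obtain ⟨j, hj, hj2⟩ := Finset.exists_mem_eq_sup _ hne lev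
  exact ⟨j, hj2.symm, (Finset.mem_filter.1 hj).2⟩

/-- the key of a frequency -/
noncomputable def tpt_key {r : ℕ} (lev : Fin r → ℕ) (p : ℕ) (X : Fin r → ℤ) :
    ℕ × (Fin r → ℤ) :=
  (tpt_l lev X, fun j => if lev j = tpt_l lev X then (p : ℤ) ^ (lev j + 1) * X j else 0)

theorem tpt_ne {p k : ℕ} (hp : 1 ≤ p) {z : ℤ} (hz : z ≠ 0) : (p : ℤ) ^ (k + 1) * z ≠ 0 := by
  have h2 : (p : ℤ) ≠ 0 := by exact_mod_cast (by omega : p ≠ 0)
  exact mul_ne_zero (pow_ne_zero _ h2) hz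

theorem tpt_orth (h1 : ST_TPO) {r : ℕ} (lev : Fin r → ℕ) (D : Matrix (Fin r) (Fin r) ℤ)
    (ψ : Fin r → T r → ℝ) (S : T r → T r) (x : T r) (hT : Tw lev D ψ S) (p p' : ℕ)
    (hp : 1 ≤ p) (hp' : 1 ≤ p') (X X' : Fin r → ℤ) (hX : X ≠ 0) (hX' : X' ≠ 0)
    (hne : tpt_key lev p X ≠ tpt_key lev p' X') :
    pdt_Z (fun y => mFourier X (S^[p * y] x)) (fun y => mFourier X' (S^[p' * y] x)) := by
  obtain ⟨j, hj, hj2⟩ := tpt_l_mem lev X hX
  obtain ⟨j', hj', hj2'⟩ := tpt_l_mem lev X' hX'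
  rcases lt_trichotomy (tpt_l lev X) (tpt_l lev X') with h | h | h
  · refine h1 r lev D ψ S hT (tpt_l lev X') p p' X X' x x hp hp'
      (fun i hi => (tpt_l_le lev X i hi).trans h.le) (fun i hi => tpt_l_le lev X' i hi)
      ⟨j', hj', ?_⟩
    have h3 : X j' = 0 := by
      by_contra h4
      have := tpt_l_le lev X j' h4
      omega
    rw [h3, mul_zero]
    exact (tpt_ne hp' hj2').symm
  · refine h1 r lev D ψ S hT (tpt_l lev X') p p' X X' x x hp hp'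
      (fun i hi => (tpt_l_le lev X i hi).trans h.le) (fun i hi => tpt_l_le lev X' i hi) ?_
    by_contra hcon
    push Not at hcon
    apply hne
    unfold tpt_key
    rw [h]
    refine Prod.ext rfl ?_
    funext i
    simp only
    split_ifs with h5
    · have h6 := hcon i h5
      rw [h5]
      exact h6
    · rfl
  · refine h1 r lev D ψ S hT (tpt_l lev X) p p' X X' x x hp hp'
      (fun i hi => tpt_l_le lev X i hi) (fun i hi => (tpt_l_le lev X' i hi).trans h.le)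
      ⟨j, hj, ?_⟩
    have h3 : X' j = 0 := by
      by_contra h4
      have := tpt_l_le lev X' j h4
      omega
    rw [h3, mul_zero]
    exact tpt_ne hp hj2

theorem tpt_zero (h1 : ST_TPO) {r : ℕ} (lev : Fin r → ℕ) (D : Matrix (Fin r) (Fin r) ℤ)
    (ψ : Fin r → T r → ℝ) (S : T r → T r) (x : T r) (hT : Tw lev D ψ S) (p : ℕ)
    (hp : 1 ≤ p) (X : Fin r → ℤ) (hX : X ≠ 0) :
    pdt_Z (fun y => mFourier X (S^[p * y] x)) (fun _ => 1) := by
  obtain ⟨j, hj, hj2⟩ := tpt_l_mem lev X hX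
  have h4 := h1 r lev D ψ S hT (tpt_l lev X) p p X 0 x x hp hp
    (fun i hi => tpt_l_le lev X i hi) (fun i hi => absurd rfl hi) ⟨j, hj, by
      rw [Pi.zero_apply, mul_zero]
      exact tpt_ne hp hj2⟩
  unfold pdt_Z
  simpa only [UnitAddTorus.mFourier_zero, ContinuousMap.one_apply] using h4

theorem tpt_same (h1 : ST_TPO) {r : ℕ} (lev : Fin r → ℕ) (D : Matrix (Fin r) (Fin r) ℤ)
    (ψ : Fin r → T r → ℝ) (S : T r → T r) (x : T r) (hT : Tw lev D ψ S) (p : ℕ)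
    (hp : 1 ≤ p) (X X' : Fin r → ℤ) (hne : X ≠ X') :
    pdt_Z (fun y => mFourier X (S^[p * y] x)) (fun y => mFourier X' (S^[p * y] x)) := by
  have h1 := tpt_zero h1 lev D ψ S x hT p hp (X + -X') (by
    intro h
    exact hne (add_neg_eq_zero.1 h))
  unfold pdt_Z at h1 ⊢
  simpa only [UnitAddTorus.mFourier_add, UnitAddTorus.mFourier_neg, map_one, mul_one] using h1

theorem st_TPT (h1 : ST_TPO) (_h2 : ST_TEL) : ST_TPT := by
  classical
  intro r lev D ψ S x Q F a L n₀ τ hT hQ h0F ha2 haτ hn₀ ε hε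
  obtain ⟨e, he⟩ : ∃ e : ℕ → (Fin r → ℤ) → ℕ → ℂ, e = fun p X y => mFourier X (S^[p * y] x) :=
    ⟨_, rfl⟩
  have he1 : ∀ p X y, ‖e p X y‖ ≤ 1 := by
    intro p X y
    rw [he]
    exact pdt_norm _ _
  have hsame : ∀ p ∈ Q, ∀ X X', X ≠ X' → pdt_Z (e p X) (e p X') := by
    intro p hp X X' hne
    rw [he]
    exact tpt_same h1 lev D ψ S x hT p (hQ p hp) X X' hne
  have horth : ∀ p ∈ Q, ∀ p' ∈ Q, ∀ X X', X ≠ 0 → X' ≠ 0 → tpt_key lev p X ≠ tpt_key lev p' X' →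
      pdt_Z (e p X) (e p' X') := by
    intro p hp p' hp' X X' hX hX' hne
    rw [he]
    exact tpt_orth h1 lev D ψ S x hT p p' (hQ p hp) (hQ p' hp') X X' hX hX' hne
  have hzero : ∀ p ∈ Q, ∀ X, X ≠ 0 → pdt_Z (e p X) (fun _ => 1) := by
    intro p hp X hX
    rw [he]
    exact tpt_zero h1 lev D ψ S x hT p (hQ p hp) X hX
  obtain ⟨Fh, hFh⟩ : ∃ Fh, Fh = F.filter (fun X => ∃ j, (L : ℤ) < |X j|) := ⟨_, rfl⟩
  obtain ⟨Fl, hFl⟩ : ∃ Fl, Fl =
    (F.filter (fun X => ¬ ∃ j, (L : ℤ) < |X j|)).filter (fun X => ¬ X = 0) := ⟨_, rfl⟩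
  have hz0 : (F.filter (fun X => ¬ ∃ j, (L : ℤ) < |X j|)).filter (fun X => X = 0) = {0} := by
    ext X
    simp only [Finset.mem_filter, Finset.mem_singleton]
    constructor
    · exact fun h => h.2
    · rintro rfl
      refine ⟨⟨h0F, ?_⟩, rfl⟩
      rintro ⟨j, hj⟩
      simp only [Pi.zero_apply, abs_zero] at hj
      omega
  have hsplit : ∀ t : (Fin r → ℤ) → ℂ,
      ∑ X ∈ F, t X = t 0 + (∑ X ∈ Fl, t X + ∑ X ∈ Fh, t X) := by
    intro t
    rw [← Finset.sum_filter_add_sum_filter_not F (fun X => ∃ j, (L : ℤ) < |X j|) t,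
      ← Finset.sum_filter_add_sum_filter_not
        (F.filter (fun X => ¬ ∃ j, (L : ℤ) < |X j|)) (fun X => X = 0) t, hz0,
      Finset.sum_singleton, ← hFl, ← hFh]
    ring
  have hlow : ∀ X ∈ Fl, X ≠ 0 ∧ ∀ j, |X j| ≤ (L : ℤ) := by
    intro X hX
    rw [hFl, Finset.mem_filter, Finset.mem_filter] at hX
    exact ⟨hX.2, fun j => not_lt.1 fun h => hX.1.2 ⟨j, h⟩⟩
  have hlsub : Fl ⊆ F := by
    rw [hFl]
    exact (Finset.filter_subset _ _).trans (Finset.filter_subset _ _)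
  have hhsub : Fh ⊆ F := by
    rw [hFh]
    exact Finset.filter_subset _ _
  have hhigh : ∀ X ∈ Fh, ∃ j, (L : ℤ) < |X j| := by
    intro X hX
    rw [hFh, Finset.mem_filter] at hX
    exact hX.2
  have hhne : ∀ X ∈ Fh, X ≠ 0 := by
    rintro X hX rfl
    obtain ⟨j, hj⟩ := hhigh 0 hX
    simp only [Pi.zero_apply, abs_zero] at hj
    omega
  -- the high part
  have hBh : pdt_B (fun y => ∑ p ∈ Q, ∑ X ∈ Fh, a p X * e p X y)
      ((Q.card : ℝ) * ∑ _p ∈ Q, τ) :=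
    pdt_B_cs Q Q.card le_rfl fun p hp => pdt_B_mono
      (pdt_B_sum Fh (fun X _ => pdt_B_one (a p X) (e p X) (he1 p X))
        (fun X _ X' _ hne => pdt_Z_smul2 _ _ (hsame p hp X X' hne)))
      (haτ p hp Fh hhsub hhigh)
  -- the low part
  obtain ⟨K, hK⟩ : ∃ K : Finset (ℕ × (Fin r → ℤ)),
    K = Q.biUnion (fun p => Fl.image (tpt_key lev p)) := ⟨_, rfl⟩
  have hlowsum : ∀ (R : Type) [AddCommMonoid R] (t : ℕ → (Fin r → ℤ) → R),
      ∑ p ∈ Q, ∑ X ∈ Fl, t p X =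
        ∑ κ ∈ K, ∑ p ∈ Q, ∑ X ∈ Fl.filter (fun X => tpt_key lev p X = κ), t p X := by
    intro R _ t
    rw [Finset.sum_comm (s := K)]
    refine Finset.sum_congr rfl fun p hp => ?_
    refine (Finset.sum_fiberwise_of_maps_to (fun X hX => ?_) _).symm
    rw [hK]
    exact Finset.mem_biUnion.2 ⟨p, hp, Finset.mem_image_of_mem _ hX⟩
  obtain ⟨P, hP⟩ : ∃ P : ℕ × (Fin r → ℤ) → Finset ℕ, P = fun κ =>
    Q.filter (fun p => (Fl.filter (fun X => tpt_key lev p X = κ)).Nonempty) := ⟨_, rfl⟩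
  have hPsum : ∀ (R : Type) [AddCommMonoid R] (κ : ℕ × (Fin r → ℤ))
      (t : ℕ → (Fin r → ℤ) → R),
      ∑ p ∈ Q, ∑ X ∈ Fl.filter (fun X => tpt_key lev p X = κ), t p X =
        ∑ p ∈ P κ, ∑ X ∈ Fl.filter (fun X => tpt_key lev p X = κ), t p X := by
    intro R _ κ t
    rw [hP]
    refine (Finset.sum_filter_of_ne fun p _ hne => ?_).symm
    by_contra hemp
    rw [Finset.not_nonempty_iff_eq_empty] at hemp
    rw [hemp, Finset.sum_empty] at hne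
    exact hne rfl
  have hcard : ∀ κ ∈ K, (P κ).card ≤ n₀ := by
    intro κ hκ
    rw [hK] at hκ
    obtain ⟨p₀, hp₀, hκ2⟩ := Finset.mem_biUnion.1 hκ
    obtain ⟨X₀, hX₀, hκ3⟩ := Finset.mem_image.1 hκ2
    obtain ⟨j, hj, hj2⟩ := tpt_l_mem lev X₀ (hlow X₀ hX₀).1
    have hκj : κ.2 j = (p₀ : ℤ) ^ (lev j + 1) * X₀ j := by
      rw [← hκ3]
      exact if_pos hj
    refine hn₀ j (κ.2 j) (by
      rw [hκj]
      exact tpt_ne (hQ p₀ hp₀) hj2) (P κ) (by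
      rw [hP]
      exact Finset.filter_subset _ _) ?_
    intro p hp
    rw [hP] at hp
    obtain ⟨X, hX⟩ := (Finset.mem_filter.1 hp).2
    obtain ⟨hX1, hX2⟩ := Finset.mem_filter.1 hX
    refine ⟨X j, (hlow X hX1).2 j, ?_⟩
    have h5 : tpt_l lev X = tpt_l lev X₀ := by
      have h6 := congrArg Prod.fst (hX2.trans hκ3.symm)
      exact h6
    rw [← hX2]
    exact (if_pos (hj.trans h5.symm)).symm
  have hBκ : ∀ κ ∈ K, pdt_B
      (fun y => ∑ p ∈ Q, ∑ X ∈ Fl.filter (fun X => tpt_key lev p X = κ), a p X * e p X y)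
      (n₀ * ∑ p ∈ Q, ∑ X ∈ Fl.filter (fun X => tpt_key lev p X = κ), ‖a p X‖ ^ 2) := by
    intro κ hκ
    have h1 : pdt_B
        (fun y => ∑ p ∈ P κ, ∑ X ∈ Fl.filter (fun X => tpt_key lev p X = κ), a p X * e p X y)
        (n₀ * ∑ p ∈ P κ, ∑ X ∈ Fl.filter (fun X => tpt_key lev p X = κ), ‖a p X‖ ^ 2) := by
      refine pdt_B_cs (P κ) n₀ (hcard κ hκ) fun p hp => ?_
      have hpQ : p ∈ Q := by
        rw [hP] at hp
        exact (Finset.mem_filter.1 hp).1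
      exact pdt_B_sum _ (fun X _ => pdt_B_one (a p X) (e p X) (he1 p X))
        (fun X _ X' _ hne => pdt_Z_smul2 _ _ (hsame p hpQ X X' hne))
    have h2 : (fun y => ∑ p ∈ Q, ∑ X ∈ Fl.filter (fun X => tpt_key lev p X = κ),
        a p X * e p X y) = fun y => ∑ p ∈ P κ, ∑ X ∈ Fl.filter (fun X => tpt_key lev p X = κ),
        a p X * e p X y := by
      funext y
      exact hPsum ℂ κ fun p X => a p X * e p X y
    rw [h2, hPsum ℝ κ fun p X => ‖a p X‖ ^ 2]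
    exact h1
  have hZκ : ∀ κ ∈ K, ∀ κ' ∈ K, κ ≠ κ' → pdt_Z
      (fun y => ∑ p ∈ Q, ∑ X ∈ Fl.filter (fun X => tpt_key lev p X = κ), a p X * e p X y)
      (fun y => ∑ p ∈ Q, ∑ X ∈ Fl.filter (fun X => tpt_key lev p X = κ'), a p X * e p X y) := by
    intro κ _ κ' _ hne
    refine pdt_Z_sum Q fun p hp => pdt_Z_sum _ fun X hX => pdt_Z_symm ?_
    refine pdt_Z_sum Q fun p' hp' => pdt_Z_sum _ fun X' hX' => ?_
    obtain ⟨hX1, hX2⟩ := Finset.mem_filter.1 hX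
    obtain ⟨hX1', hX2'⟩ := Finset.mem_filter.1 hX'
    refine pdt_Z_smul2 _ _ (horth p' hp' p hp X' X (hlow X' hX1').1 (hlow X hX1).1 ?_)
    rw [hX2, hX2']
    exact hne.symm
  have hBl : pdt_B (fun y => ∑ p ∈ Q, ∑ X ∈ Fl, a p X * e p X y)
      (n₀ * (2 * (Q.card : ℝ))) := by
    have h1 := pdt_B_sum K hBκ hZκ
    have h2 : (fun y => ∑ p ∈ Q, ∑ X ∈ Fl, a p X * e p X y) = fun y => ∑ κ ∈ K, ∑ p ∈ Q,
        ∑ X ∈ Fl.filter (fun X => tpt_key lev p X = κ), a p X * e p X y := by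
      funext y
      exact hlowsum ℂ fun p X => a p X * e p X y
    rw [h2]
    refine pdt_B_mono h1 ?_
    rw [← Finset.mul_sum, ← hlowsum ℝ fun p X => ‖a p X‖ ^ 2]
    refine mul_le_mul_of_nonneg_left ?_ (Nat.cast_nonneg n₀)
    have h3 : ∑ p ∈ Q, ∑ X ∈ Fl, ‖a p X‖ ^ 2 ≤ ∑ _p ∈ Q, (2 : ℝ) :=
      Finset.sum_le_sum fun p hp => (Finset.sum_le_sum_of_subset_of_nonneg hlsub
        fun X _ _ => sq_nonneg _).trans (ha2 p hp)
    refine h3.trans (le_of_eq ?_)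
    rw [Finset.sum_const, nsmul_eq_mul, mul_comm]
  -- assembly
  obtain ⟨c₀, hc₀⟩ : ∃ c₀ : ℂ, c₀ = ∑ p ∈ Q, a p 0 := ⟨_, rfl⟩
  have hB0 := pdt_B_one c₀ (fun _ => 1) (fun _ => by rw [norm_one])
  have hZl : pdt_Z (fun y => ∑ p ∈ Q, ∑ X ∈ Fl, a p X * e p X y) (fun _ => c₀ * 1) :=
    pdt_Z_sum Q fun p hp => pdt_Z_sum Fl fun X hX =>
      pdt_Z_smul2 _ _ (hzero p hp X (hlow X hX).1)
  have hZh : pdt_Z (fun y => ∑ p ∈ Q, ∑ X ∈ Fh, a p X * e p X y) (fun _ => c₀ * 1) :=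
    pdt_Z_sum Q fun p hp => pdt_Z_sum Fh fun X hX =>
      pdt_Z_smul2 _ _ (hzero p hp X (hhne X hX))
  have hfin := pdt_B_add hB0 (pdt_B_two hBl hBh) (pdt_Z_symm (pdt_Z_add hZl hZh))
  filter_upwards [hfin ε hε] with M hM
  refine (le_of_eq ?_).trans (hM.trans (le_of_eq ?_))
  · refine Finset.sum_congr rfl fun y _ => ?_
    have h1 : ∑ p ∈ Q, ∑ X ∈ F, a p X * mFourier X (S^[p * y] x) = c₀ * 1 +
        (∑ p ∈ Q, ∑ X ∈ Fl, a p X * e p X y + ∑ p ∈ Q, ∑ X ∈ Fh, a p X * e p X y) := by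
      rw [← Finset.sum_add_distrib, mul_one, hc₀, ← Finset.sum_add_distrib]
      refine Finset.sum_congr rfl fun p _ => ?_
      rw [hsplit, he]
      simp only [UnitAddTorus.mFourier_zero, ContinuousMap.one_apply, mul_one]
    rw [h1]
  · rw [← hc₀, Finset.sum_const, nsmul_eq_mul]
    ring

end Pool.Agent.Helper16.CZ
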